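import Pool.Agent.Y148.MN.Main

/-!
# Nilpotence in the middle codimension and Bloch-Beilinson filtrations: the equivalences
-/

open CategoryTheory AlgebraicGeometry

universe u v w

namespace Pool.Agent.Y148.MN

open Pool.Agent.H914 Pool.Agent.H914.VarClass Pool.Agent.H914.VarClass.Obj Pool.Agent.W492.BB
  Pool.Agent.W550.Corr Pool.Agent.TH133 Pool.Agent.Y148 Pool.Agent.Y148.BS Pool.Agent.Y148.SS
  Pool.Agent.Y148.KL Pool.Agent.Y110 Pool.Agent.Y110.Dfor Pool.Agent.Y148.BB

set_option linter.unusedSectionVars false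
set_option linter.unusedVariables false

variable {k : Type u} [Field k] {𝒱 : VarClass k} {C : TheoryData.{u, v, 0} 𝒱 ℚ}
  [hC : IsChowProj C] {K : Type w} [Field K]
  {H : WeilTheoryData.{u, v, w} C K} [hH : IsWeilProj H] {X Y Z W P T R : 𝒱.Obj}

omit hC in
lemma act_msum (Γ : C.A (X.prod Y)) (s : Finset ℕ) (f : ℕ → C.A X) :
    C.act Γ (∑ a ∈ s, f a) = ∑ a ∈ s, C.act Γ (f a) := map_sum (C.actL Γ) f s

/-- Local nilpotence in the middle codimension gives the nilpotence of homologically trivial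
correspondences. -/
theorem isNilpotent_of_mid (h : IsMiddleSummand C (X.prod X) R) (hR : MiddleNilpotent H R)
    {Γ : Cor C X} (hΓ : Γ ∈ cor0 C X) (hcl : H.cl (Γ : C.A (X.prod X)) = 0) :
    IsNilpotent Γ := by
  set G : C.A ((X.prod X).prod (X.prod X)) := tens C (dg C X) Γ with hG
  have hGm : G ∈ C.gr ((X.prod X).prod (X.prod X)) (X.prod X).dim := by
    have h1 := tens_mem C (dg_mem C X) (mem_cor0.1 hΓ)
    exact gr_congr (by simp only [dim_prod]; push_cast; ring) h1
  have hGc : H.cl G = 0 := by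
    rw [hG, cl_tens, hcl]
    change H.pull _ _ * H.pull _ 0 = 0
    rw [map_zero, mul_zero]
  have hact : ∀ Γ' : C.A (X.prod X), C.act G Γ' = C.comp Γ' Γ := by
    intro Γ'
    rw [hG, act_tens C (ch_comm C), tp_dg, dg_comp]
  have hiter : ∀ n : ℕ, (C.act G)^[n] (Γ : C.A (X.prod X)) =
      ((Γ ^ (n + 1) : Cor C X) : C.A (X.prod X)) := by
    intro n
    induction n with
    | zero => rw [Function.iterate_zero, id_eq, zero_add, pow_one]
    | succ n ih =>
      rw [Function.iterate_succ', Function.comp_apply, ih, hact, pow_succ' Γ (n + 1)]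
      rfl
  obtain ⟨n, hn⟩ := nilpotent_of_summand h hR (j := X.dim) (by rw [dim_prod]; ring) hGm hGc
    (mem_cor0.1 hΓ) hcl
  refine ⟨n + 1, ?_⟩
  rw [hiter] at hn
  exact hn

/-- The sum of the projectors of weight at least `m`. -/
noncomputable def upper (π : ℕ → C.A (X.prod X)) (m : ℕ) : C.A (X.prod X) :=
  ∑ i ∈ (Finset.range (2 * X.dim + 1)).filter (fun i => m ≤ i), π i

lemma upper_mem {π : ℕ → C.A (X.prod X)} (hπ : IsCK H X π) (m : ℕ) :
    upper π m ∈ C.gr (X.prod X) X.dim := Submodule.sum_mem _ fun i _ => hπ.deg i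

lemma upper_actH {π : ℕ → C.A (X.prod X)} (hπ : IsCK H X π) (m : ℕ) :
    IsUpperProjector H m (upper π m) := by
  intro l a ha
  have hsum : ∀ s : Finset ℕ, H.act (H.cl (∑ i ∈ s, π i)) a =
      ∑ i ∈ s, if l = (i : ℤ) then a else 0 := by
    intro s
    rw [map_sum, act_sum]
    exact Finset.sum_congr rfl fun i _ => hπ.actH_eq i l ha
  have htot : a = ∑ i ∈ Finset.range (2 * X.dim + 1), if l = (i : ℤ) then a else 0 := by
    rw [← hsum, hπ.sum, actH_dg]
  change H.act (H.cl (∑ i ∈ _, π i)) a = _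
  rw [hsum]
  by_cases hl : (m : ℤ) ≤ l
  · rw [if_pos hl]
    conv_rhs => rw [htot]
    rw [Finset.sum_filter]
    apply Finset.sum_congr rfl
    intro i _
    by_cases hi : l = (i : ℤ)
    · rw [if_pos (by omega)]
    · rw [if_neg hi, ite_self]
  · rw [if_neg hl]
    apply Finset.sum_eq_zero
    intro i hi
    rw [if_neg]
    have := (Finset.mem_filter.1 hi).2
    omega

/-- Local nilpotence in the middle codimension gives (D) in the middle codimension. -/
theorem middleD_of_mid (h : IsMiddleSummand C X R) (hR : MiddleNilpotent H R)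
    (hCK : ∃ ρ, IsCK H R ρ) : MiddleMurreD H X := by
  obtain ⟨ρ, hρ⟩ := hCK
  obtain ⟨c, f, g, hd, hf, hg, hfg⟩ := h
  have hfg' : C.comp f g = dg C X := hfg
  have hg' : g ∈ C.gr (R.prod X) (R.dim + (-(c : ℤ))) := by
    rw [← sub_eq_add_neg]
    exact hg
  have hf' : f ∈ C.gr (X.prod R) (X.dim + (c : ℤ)) := hf
  rw [mid_iff]
  intro j hj π hπ z hz hcl b hb
  set q := upper π (2 * j) with hq
  set p := upper ρ (2 * (j + c)) with hp
  have hqm : q ∈ C.gr (X.prod X) X.dim := upper_mem hπ _
  have hpm : p ∈ C.gr (R.prod R) R.dim := upper_mem hρ _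
  have hqH := upper_actH hπ (2 * j)
  have hpH := upper_actH hρ (2 * (j + c))
  set e := dg C R - C.comp g f with he
  have hem : e ∈ C.gr (R.prod R) R.dim := by
    have h1 := comp_mem C hg' hf'
    exact Submodule.sub_mem _ (dg_mem C R) (gr_congr (by ring) h1)
  have hef : ∀ w : C.A X, C.act e (C.act f w) = 0 := by
    intro w
    have h1 : C.act (C.comp g f) (C.act f w) = C.act f w := by
      rw [C.act_comp, ← C.act_comp f g, hfg', act_dg]
    rw [he, TheoryData.act_sub, act_dg, h1, sub_self]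
  have heH : ∀ a : H.A R, H.act (H.cl e) a = a - H.act (H.cl f) (H.act (H.cl g) a) := by
    intro a
    rw [he]
    exact actH_sub_comp g f a
  have hfgH : ∀ a : H.A X, H.act (H.cl g) (H.act (H.cl f) a) = a := by
    intro a
    rw [← actH_comp, hfg', actH_dg]
  set G : C.A (R.prod R) := C.comp (C.comp g q) f + C.comp (C.comp e p) e with hG
  have hGm : G ∈ C.gr (R.prod R) R.dim := by
    have e0 : ∀ {Y : 𝒱.Obj} {x : C.A (Y.prod Y)}, x ∈ C.gr (Y.prod Y) Y.dim →
        x ∈ C.gr (Y.prod Y) (Y.dim + (0 : ℤ)) := by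
      intro Y x hx
      rwa [add_zero]
    have h1 := comp_mem C (comp_mem C hg' (e0 hqm)) hf'
    have h2 := comp_mem C (comp_mem C (e0 hem) (e0 hpm)) (e0 hem)
    exact Submodule.add_mem _ (gr_congr (by ring) h1) (gr_congr (by ring) h2)
  have hact : ∀ w : C.A X, C.act G (C.act f w) = C.act f (C.act q w) := by
    intro w
    have h1 : C.act (C.comp (C.comp g q) f) (C.act f w) = C.act f (C.act q w) := by
      rw [C.act_comp, C.act_comp, ← C.act_comp f g, hfg', act_dg]
    have h2 : C.act (C.comp (C.comp e p) e) (C.act f w) = 0 := by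
      rw [C.act_comp, C.act_comp, hef, TheoryData.act_map_zero, TheoryData.act_map_zero]
    rw [hG, TheoryData.act_add, h1, h2, add_zero]
  have hGH : IsUpperProjector H (2 * (j + c)) G := by
    intro i a ha
    have ha' : a ∈ H.gr R i := ha
    have hga : H.act (H.cl g) a ∈ H.gr X (i - 2 * c) := by
      have h2 := actH_mem H hg' ha'
      exact h_congr (by ring) h2
    have hfga : H.act (H.cl f) (H.act (H.cl g) a) ∈ H.gr R i := by
      have h2 := actH_mem H hf' hga
      exact h_congr (by ring) h2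
    have hea : H.act (H.cl e) a ∈ H.gr R i := by
      rw [heH]
      exact Submodule.sub_mem _ ha' hfga
    have h1 : H.act (H.cl (C.comp (C.comp g q) f)) a = if ((2 * (j + c) : ℕ) : ℤ) ≤ i then
        H.act (H.cl f) (H.act (H.cl g) a) else 0 := by
      rw [actH_comp, actH_comp]
      have h3 := hqH _ _ hga
      change H.act (H.cl q) _ = _ at h3
      rw [h3]
      by_cases hi : ((2 * (j + c) : ℕ) : ℤ) ≤ i
      · rw [if_pos hi, if_pos (by push_cast at hi ⊢; omega)]
      · rw [if_neg hi, if_neg (by push_cast at hi ⊢; omega), TheoryData.act_map_zero]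
    have h2 : H.act (H.cl (C.comp (C.comp e p) e)) a = if ((2 * (j + c) : ℕ) : ℤ) ≤ i then
        H.act (H.cl e) a else 0 := by
      rw [actH_comp, actH_comp]
      have h3 := hpH _ _ hea
      change H.act (H.cl p) _ = _ at h3
      rw [h3]
      by_cases hi : ((2 * (j + c) : ℕ) : ℤ) ≤ i
      · rw [if_pos hi, heH, heH]
        have h4 : H.act (H.cl g) (a - H.act (H.cl f) (H.act (H.cl g) a)) = 0 := by
          have h5 := map_sub (H.actL (H.cl g)) a (H.act (H.cl f) (H.act (H.cl g) a))
          change H.act (H.cl g) (a - H.act (H.cl f) (H.act (H.cl g) a)) =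
            H.act (H.cl g) a - H.act (H.cl g) (H.act (H.cl f) (H.act (H.cl g) a)) at h5
          rw [h5, hfgH, sub_self]
        rw [h4, TheoryData.act_map_zero, sub_zero]
      · rw [if_neg hi, TheoryData.act_map_zero]
    change H.act (H.cl G) a = _
    rw [hG, map_add, TheoryData.act_add, h1, h2]
    by_cases hi : ((2 * (j + c) : ℕ) : ℤ) ≤ i
    · rw [if_pos hi, if_pos hi, if_pos hi, heH, add_sub_cancel]
    · rw [if_neg hi, if_neg hi, if_neg hi, add_zero]
  obtain ⟨n, hn⟩ := hR (j + c) (by rw [hd, hj]; ring) G hGm (Or.inr hGH) (C.act f z)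
    (by have := act_deg_sub hf hz; exact_mod_cast this) (by
      change H.cl (C.act f z) = 0
      rw [cl_act H, hcl, TheoryData.act_map_zero])
  have hn' := iter_of_summand hfg' hact hn
  -- the operator `q` is idempotent
  have hπq : ∀ i : ℕ, 2 * j ≤ i → C.comp q (π i) = π i := by
    intro i hi
    by_cases hid : i ≤ 2 * X.dim
    · rw [hq, upper, sum_comp, Finset.sum_eq_single i]
      · exact hπ.idem i
      · intro l _ hl
        exact hπ.orth l i hl
      · intro h
        exact absurd (Finset.mem_filter.2 ⟨Finset.mem_range.2 (by omega), hi⟩) h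
    · rw [hπ.out i (by omega), comp_zero]
  have hqq : C.comp q q = q := by
    conv_lhs => rw [hq, upper, comp_sum]
    conv_rhs => rw [hq, upper]
    exact Finset.sum_congr rfl fun i hi => hπq i (Finset.mem_filter.1 hi).2
  have hiter : ∀ n : ℕ, (C.act q)^[n + 1] z = C.act q z := by
    intro n
    induction n with
    | zero => rfl
    | succ n ih => rw [Function.iterate_succ', Function.comp_apply, ih, ← C.act_comp, hqq]
  have hqz : C.act q z = 0 := by
    rcases n with _ | n
    · have h0 : z = 0 := hn'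
      rw [h0, TheoryData.act_map_zero]
    · rwa [hiter] at hn'
  rw [← hπq b hb, C.act_comp, hqz, TheoryData.act_map_zero]

/-- The lowering of weights on `R` if (D) holds in the middle codimension on `R` and `R × R`. -/
theorem mid_of_middleD (hR : MiddleMurreD H R) (hRR : MiddleMurreD H (R.prod R))
    (hCK : ∃ π, IsCK H R π) : MiddleNilpotent H R := by
  rw [mid_iff] at hR hRR
  obtain ⟨π, hπ⟩ := hCK
  intro j hj G hG hk' z hz hcl
  have hk : ∀ i : ℕ, i < 2 * j → Kills H G i := by
    intro i hi a ha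
    rcases hk' with h0 | h0
    · rw [show H.cl G = 0 from h0, TheoryData.act_zero]
    · have h1 := h0 i a ha
      rw [if_neg (by push_cast; omega)] at h1
      exact h1
  -- homologically trivial correspondences lower the weights
  have lower : ∀ γ : C.A (R.prod R), C.Deg R.dim γ → H.cl γ = 0 → ∀ a b : ℕ, a ≤ b →
      C.comp (C.comp (π a) γ) (π b) = 0 := by
    intro γ hγ hγc a b hab
    by_cases ha : a ≤ 2 * R.dim
    · apply comp_zero_of_prod (H := H) hπ hπ ha
      exact hRR R.dim (by rw [dim_prod]; ring) _ (hπ.dual.prod hπ) γ hγ hγc _ (by omega)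
    · rw [hπ.out a (by omega), zero_comp, zero_comp]
  have lowG : ∀ a b : ℕ, a < 2 * j → a ≤ b → C.comp (C.comp (π a) G) (π b) = 0 := by
    intro a b ha hab
    have hm : C.comp (π a) G ∈ C.gr (R.prod R) R.dim := by
      have h1 := comp_mem C (e := 0) (e' := 0) (by rw [add_zero]; exact hπ.deg a)
        (by rw [add_zero]; exact hG)
      exact gr_congr (by ring) h1
    have hc : H.cl (C.comp (π a) G) = 0 := by
      apply hom_zero_of_act
      intro x
      apply act_eq_zero_of_kills
      intro l y hy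
      rw [actH_comp]
      by_cases hl : l = a
      · have h1 : H.act (H.cl (π a)) y = y := by
          rw [hl] at hy
          exact hπ.act_self a y hy
        rw [h1]
        rw [hl] at hy
        exact hk a ha y hy
      · have h1 : H.act (H.cl (π a)) y = 0 := hπ.act_ne a l y hl hy
        rw [h1, TheoryData.act_map_zero]
    have h1 := lower _ hm hc a b hab
    rw [← comp_assoc, hπ.idem] at h1
    exact h1
  -- the cycles killed by the projectors of weight greater than `2j - n`
  have key : ∀ n : ℕ, C.Deg j ((C.act G)^[n] z) ∧ ∀ b : ℕ, 2 * j ≤ b + n →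
      C.act (π b) ((C.act G)^[n] z) = 0 := by
    intro n
    induction n with
    | zero => exact ⟨hz, fun b hb => hR j hj π hπ z hz hcl b (by omega)⟩
    | succ n ih =>
      obtain ⟨ih1, ih2⟩ := ih
      rw [Function.iterate_succ', Function.comp_apply]
      refine ⟨act_mem0 C hG ih1, fun b hb => ?_⟩
      have h1 : (C.act G)^[n] z = ∑ a ∈ Finset.range (2 * R.dim + 1),
          C.act (π a) ((C.act G)^[n] z) := by
        rw [← act_sum, hπ.sum, act_dg]
      rw [h1, act_msum, act_msum]
      apply Finset.sum_eq_zero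
      intro a _
      by_cases ha : 2 * j ≤ a + n
      · rw [ih2 a ha, TheoryData.act_map_zero, TheoryData.act_map_zero]
      · rw [← C.act_comp, ← C.act_comp, ← comp_assoc, lowG a b (by omega) (by omega),
          TheoryData.act_zero]
  refine ⟨2 * j, ?_⟩
  obtain ⟨-, h2⟩ := key (2 * j)
  have h1 : (C.act G)^[2 * j] z = ∑ a ∈ Finset.range (2 * R.dim + 1),
      C.act (π a) ((C.act G)^[2 * j] z) := by
    rw [← act_sum, hπ.sum, act_dg]
  rw [h1]
  exact Finset.sum_eq_zero fun a _ => h2 a (by omega)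

/-- Local nilpotence from a filtration of the Chow group of middle codimension. -/
theorem mid_of_filtration (h : HasMiddleFiltration H R) : MiddleNilpotent H R := by
  intro j hj G hG hk' z hz hcl
  obtain ⟨F, h0, hanti, ⟨N, hN⟩, hF⟩ := h j hj
  have hk : ∀ i : ℤ, i < 2 * j → Kills H G i := by
    intro i hi a ha
    rcases hk' with h0 | h0
    · rw [show H.cl G = 0 from h0, TheoryData.act_zero]
    · have h1 := h0 i a ha
      rw [if_neg (by push_cast; omega)] at h1
      exact h1
  -- homologically trivial cycles are in the first step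
  obtain ⟨u, hu, v, hv, huv⟩ := exists_dual_pair (C := C) (H := H) R (l := j) (by omega)
  have hz1 : z ∈ F 1 := by
    have hζ : C.ext v z ∈ C.gr (R.prod R) R.dim := by
      have := ext_mem (C := C) (H := H) hv hz
      rwa [sub_add_cancel] at this
    have hζc : H.cl (C.ext v z) = 0 := by
      rw [TheoryData.ext, map_mul, H.cl_pull, H.cl_pull, show H.cl z = 0 from hcl, map_zero,
        mul_zero]
    have h1 := hF 0 (C.ext v z) hζ (fun a _ => by rw [hζc, TheoryData.act_zero]) u
      ((h0 u).2 hu)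
    rwa [TH133.act_ext (H := H), huv, one_mul] at h1
  have key : ∀ n : ℕ, (C.act G)^[n] z ∈ F (n + 1) := by
    intro n
    induction n with
    | zero => exact hz1
    | succ n ih =>
      rw [Function.iterate_succ', Function.comp_apply]
      exact hF (n + 1) G hG (hk _ (by push_cast; omega)) _ ih
  have hle : ∀ m : ℕ, N ≤ m → ∀ w ∈ F m, w ∈ F N := by
    intro m hm
    induction m, hm using Nat.le_induction with
    | base => exact fun w hw => hw
    | succ m _ ih => exact fun w hw => ih w (hanti m w hw)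
  exact ⟨N, hN _ (hle (N + 1) (by omega) _ (key N))⟩

/-- From Chow-Kunneth decompositions and (D) in the middle codimension to a Bloch-Beilinson
filtration and to Murre's conjectures. -/
theorem final_of_middleD {A : ∀ X : 𝒱.Obj, C.A X → Prop} (hA : HasHyperplaneSections H A)
    (hCK : ∀ X : 𝒱.Obj, ∃ π, IsCK H X π) (hD : ∀ X : 𝒱.Obj, MiddleMurreD H X) :
    KunnethConjecture H ∧ (∃ F : Filtrations C, IsBlochBeilinsonFiltration H (fun _ => True) F) ∧
      ∀ X : 𝒱.Obj, MurreConjectures H X := by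
  have hK := kunneth_of_CK hCK
  have hD' : ∀ (X : 𝒱.Obj) (π : ℕ → C.A (X.prod X)), IsCK H X π → ∀ i : ℕ,
      MurreDFor H π i := fun X π hπ i => D_of_middle (fun X π hπ i hX => by
    rw [Dfor.murreDFor_iff hπ]
    exact fun x hx hcl b hb => mid_iff.1 (hD X) i hX π hπ x hx hcl b hb) hπ i
  obtain ⟨F, hFm⟩ := main_backward hCK hD'
  obtain ⟨-, hfil, hone, hmul, hst⟩ := main_forward hK hFm
  have htop := top_of_motivic hK hA hFm
  refine ⟨hK, ⟨F.F, ⟨fun X _ j ν z hz => F.anti X j ν hz, fun X _ j z => hFm.zero X j z,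
    fun X _ j z => hone X j z, fun X _ j z hz => htop X j z hz,
    fun X _ j i ν μ z y hz hy => hmul.mul hz hy, fun X Y _ _ f j ν z hz => hmul.pull f hz,
    fun X Y _ _ f j i ν h z hz => hmul.push f h hz,
    fun X _ j ν Γ hΓ hk z hz => hFm.motivic hK X j ν Γ hΓ hk z hz⟩⟩, fun X => ?_⟩
  have step : ∀ (π : ℕ → C.A (X.prod X)), IsChowKunneth H π → ∀ (j ν : ℕ) (z : C.A X),
      InStep π j ν z ↔ z ∈ F.F X j ν := by
    intro π hπ j ν z
    have hπ' := isChowKunneth_iff.1 hπ
    rw [hfil X π hπ' j ν, Y110.fil_eq_ckFil hπ' j ν, inStep_iff]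
  obtain ⟨π, hπ⟩ := hCK X
  refine ⟨⟨π, isChowKunneth_iff.2 hπ⟩, fun π hπ j z => ⟨fun hz => ?_, fun hz => ?_⟩,
    fun π π' hπ hπ' j ν z => ?_, fun π hπ j z => ?_⟩
  · rw [step π hπ]
    exact (hFm.zero X j z).2 hz
  · rw [step π hπ] at hz
    exact htop X j z hz
  · rw [step π hπ, step π' hπ']
  · rw [step π hπ]
    exact hone X j z

/-- **Nilpotence in the middle codimension and Bloch-Beilinson filtrations.** -/
theorem middleNilpotence {A : ∀ X : 𝒱.Obj, C.A X → Prop} (hA : HasHyperplaneSections H A)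
    (Rat : 𝒱.Obj → Prop) (hprod : ∀ X Y, Rat X → Rat Y → Rat (X.prod Y))
    (hRat : ∀ X : 𝒱.Obj, ∃ R, Rat R ∧ IsMiddleSummand C X R) :
    List.TFAE [
      KunnethConjecture H ∧
        ∃ F : Filtrations C, IsBlochBeilinsonFiltration H (fun _ => True) F,
      ∀ X : 𝒱.Obj, MurreConjectures H X,
      ∀ R, Rat R → (∃ π : ℕ → C.A (R.prod R), IsChowKunneth H π) ∧ MiddleMurreD H R,
      ∀ R, Rat R → KunnethFor H R ∧ MiddleNilpotent H R,
      KunnethConjecture H ∧ ∀ (X : 𝒱.Obj) (j : ℕ), X.dim = 2 * j → ∀ Γ : C.A (X.prod X),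
        C.Deg X.dim Γ → (∀ i : ℕ, i < 2 * j → Kills H Γ i) → ∀ z : C.A X, C.Deg j z →
          IsHomTrivial H z → (C.act Γ)^[j] z = 0,
      ∀ R, Rat R → KunnethFor H R ∧ HasMiddleFiltration H R] := by
  have main : (∀ R, Rat R → KunnethFor H R ∧ MiddleNilpotent H R) →
      (∀ X : 𝒱.Obj, ∃ π, IsCK H X π) ∧ ∀ X : 𝒱.Obj, MiddleMurreD H X := by
    intro h
    have hK : KunnethConjecture H := by
      intro X m
      obtain ⟨R, hR, hXR⟩ := hRat X
      exact kunneth_of_summand hXR (h R hR).1 m
    have hCK : ∀ X : 𝒱.Obj, ∃ π, IsCK H X π := by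
      intro X
      obtain ⟨R, hR, hXR⟩ := hRat (X.prod X)
      exact exists_isCK_of_nilpotent hK fun Γ hΓ hcl => isNilpotent_of_mid hXR (h R hR).2 hΓ hcl
    refine ⟨hCK, fun X => ?_⟩
    obtain ⟨R, hR, hXR⟩ := hRat X
    exact middleD_of_mid hXR (h R hR).2 (hCK R)
  tfae_have 1 → 5 := by
    rintro ⟨hK, F, hF⟩
    refine ⟨hK, fun X j hX Γ hΓ hk z hz hcl => ?_⟩
    have key : ∀ n : ℕ, n ≤ j → F.Has j (1 + n) ((C.act Γ)^[n] z) := by
      intro n
      induction n with
      | zero => exact fun _ => (hF.one X trivial j z).2 ⟨hz, hcl⟩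
      | succ n ih =>
        intro hn
        rw [Function.iterate_succ', Function.comp_apply]
        obtain ⟨i, hi⟩ : ∃ i : ℕ, i + (1 + n) = 2 * j := ⟨2 * j - (1 + n), by omega⟩
        have e1 : (2 * (j : ℤ) - ((1 + n : ℕ) : ℤ)) = i := by omega
        exact hF.motivic X trivial j (1 + n) Γ hΓ (by rw [e1]; exact hk i (by omega)) _
          (ih (by omega))
    have h1 := key j le_rfl
    rw [add_comm] at h1
    exact hF.top X trivial j _ h1
  tfae_have 5 → 4 := by
    rintro ⟨hK, h⟩ R _
    refine ⟨fun m => hK R m, fun j hj Γ hΓ hk z hz hcl => ⟨j, h R j hj Γ hΓ ?_ z hz hcl⟩⟩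
    intro i hi a ha
    rcases hk with h0 | h0
    · rw [show H.cl Γ = 0 from h0, TheoryData.act_zero]
    · have h1 := h0 i a ha
      rw [if_neg (by push_cast; omega)] at h1
      exact h1
  tfae_have 4 → 2 := by
    intro h
    obtain ⟨hCK, hD⟩ := main h
    exact (final_of_middleD hA hCK hD).2.2
  tfae_have 2 → 3 := by
    intro h R _
    refine ⟨(h R).a, fun j hj π hπ z hz hcl => ?_⟩
    exact ((h R).d π hπ j z).2 ⟨hz, hcl⟩
  tfae_have 3 → 4 := by
    intro h R hR
    obtain ⟨⟨π, hπ⟩, hD⟩ := h R hR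
    have hπ' := isChowKunneth_iff.1 hπ
    refine ⟨fun m => ⟨π m, hπ'.deg m, fun l a ha => hπ'.actH_eq m l ha⟩, ?_⟩
    exact mid_of_middleD hD (h _ (hprod R R hR hR)).2 ⟨π, hπ'⟩
  tfae_have 4 → 1 := by
    intro h
    obtain ⟨hCK, hD⟩ := main h
    exact ⟨(final_of_middleD hA hCK hD).1, (final_of_middleD hA hCK hD).2.1⟩
  tfae_have 1 → 6 := by
    rintro ⟨hK, F, hF⟩ R _
    exact ⟨fun m => hK R m, fun j _ => ⟨F R j, fun z => hF.zero R trivial j z,
      fun ν z hz => hF.anti R trivial j ν z hz, ⟨j + 1, fun z hz => hF.top R trivial j z hz⟩,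
      fun ν Γ hΓ hk z hz => hF.motivic R trivial j ν Γ hΓ hk z hz⟩⟩
  tfae_have 6 → 4 := fun h R hR => ⟨(h R hR).1, mid_of_filtration (h R hR).2⟩
  tfae_finish

end Pool.Agent.Y148.MN
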