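import Pool.Agent.Y148.KL.Lang

/-!
# Middle summands, and nilpotence in the middle codimension: definitions
-/

open CategoryTheory AlgebraicGeometry

universe u v w

namespace Pool.Agent.Y148.MN

open Pool.Agent.H914 Pool.Agent.H914.VarClass Pool.Agent.H914.VarClass.Obj Pool.Agent.W492.BB
  Pool.Agent.Y148.BS Pool.Agent.Y148.SS

variable {k : Type u} [Field k] {𝒱 : VarClass k} (C : TheoryData.{u, v, 0} 𝒱 ℚ)
  {K : Type w} [Field K] (H : WeilTheoryData.{u, v, w} C K)

/-- For some `c` with `dim R = dim X + 2c` the motive `h(X)(-c)` is a direct summand of the motive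
`h(R)`: there are correspondences `f` of degree `c` from `X` to `R` and `g` of degree `-c` from `R`
to `X` whose composition is the diagonal of `X`. (Blow up `X` in a projective space of dimension
`dim X + 2c`.) -/
def IsMiddleSummand (X R : 𝒱.Obj) : Prop :=
  ∃ (c : ℕ) (f : C.A (X.prod R)) (g : C.A (R.prod X)), R.dim = X.dim + 2 * c ∧
    C.Deg (X.dim + c) f ∧ C.Deg (R.dim - c) g ∧ circ C f g = diag C X

variable {C}

/-- The Kunneth standard conjecture for the variety `X`: for every `m` some self-correspondence of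
degree zero of `X` acts as the identity on `H^m(X)` and as zero on `H^l(X)`, `l ≠ m`. -/
def KunnethFor (X : 𝒱.Obj) : Prop :=
  ∀ m : ℕ, ∃ p : C.A (X.prod X), C.Deg X.dim p ∧ ∀ (l : ℤ) (a : H.A X), H.Deg l a →
    actH H p a = if l = m then a else 0

/-- The self-correspondence `Γ` of `X` acts as the identity on `H^i(X)` for `i ≥ m` and as zero on
`H^i(X)` for `i < m`. -/
def IsUpperProjector {X : 𝒱.Obj} (m : ℕ) (Γ : C.A (X.prod X)) : Prop :=
  ∀ (i : ℤ) (a : H.A X), H.Deg i a → actH H Γ a = if (m : ℤ) ≤ i then a else 0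

/-- If the dimension of `X` is `2j`: the self-correspondences `Γ` of degree zero of `X` which are
homologically trivial or homologically equivalent to the projector onto the `H^i(X)` with
`i ≥ 2j` act locally nilpotently on the homologically trivial cycles of codimension `j`. -/
def MiddleNilpotent (X : 𝒱.Obj) : Prop :=
  ∀ j : ℕ, X.dim = 2 * j → ∀ Γ : C.A (X.prod X), C.Deg X.dim Γ →
    (IsHomTrivial H Γ ∨ IsUpperProjector H (2 * j) Γ) →
      ∀ z : C.A X, C.Deg j z → IsHomTrivial H z → ∃ n : ℕ, (C.act Γ)^[n] z = 0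

/-- If the dimension of `X` is `2j`: for all Chow-Kunneth decompositions of `X` the homologically
trivial cycles of codimension `j` lie in `F^1 CH^j(X)` (Murre's conjecture (D) in the middle
codimension). -/
def MiddleMurreD (X : 𝒱.Obj) : Prop :=
  ∀ j : ℕ, X.dim = 2 * j → ∀ π : ℕ → C.A (X.prod X), IsChowKunneth H π →
    ∀ z : C.A X, C.Deg j z → IsHomTrivial H z → InStep π j 1 z

/-- If the dimension of `X` is `2j`: the group `CH^j(X)` has a finite descending filtration
`F 0 ⊇ F 1 ⊇ ⋯` with `F 0 = CH^j(X)` such that the self-correspondences of degree zero of `X`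
which act as zero on `H^(2j-ν)(X)` map `F ν` to `F (ν+1)`. -/
def HasMiddleFiltration (X : 𝒱.Obj) : Prop :=
  ∀ j : ℕ, X.dim = 2 * j → ∃ F : ℕ → Submodule ℚ (C.A X), (∀ z, z ∈ F 0 ↔ C.Deg j z) ∧
    (∀ (ν : ℕ) (z : C.A X), z ∈ F (ν + 1) → z ∈ F ν) ∧ (∃ n : ℕ, ∀ z ∈ F n, z = 0) ∧
      ∀ (ν : ℕ) (Γ : C.A (X.prod X)), C.Deg X.dim Γ → Kills H Γ (2 * j - ν) →
        ∀ z ∈ F ν, C.act Γ z ∈ F (ν + 1)

end Pool.Agent.Y148.MN
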