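import Pool.Agent.Y148.MN.Lang
import Pool.Agent.Y148.KL.Translate

/-!
# Nilpotence in the middle codimension and Bloch-Beilinson filtrations
-/

open CategoryTheory AlgebraicGeometry

universe u v w

namespace Pool.Agent.Y148.MN

open Pool.Agent.H914 Pool.Agent.H914.VarClass Pool.Agent.H914.VarClass.Obj Pool.Agent.W492.BB
  Pool.Agent.W550.Corr Pool.Agent.TH133 Pool.Agent.Y148 Pool.Agent.Y148.BS Pool.Agent.Y148.SS
  Pool.Agent.Y148.KL Pool.Agent.Y110 Pool.Agent.Y110.Dfor Pool.Agent.Y148.BB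

set_option linter.unusedSectionVars false
set_option linter.unusedVariables false

variable {k : Type u} [Field k] {𝒱 : VarClass k} {C : TheoryData.{u, v, 0} 𝒱 ℚ}
  [hC : IsChowProj C] {K : Type w} [Field K]
  {H : WeilTheoryData.{u, v, w} C K} [hH : IsWeilProj H] {X Y Z W P T R : 𝒱.Obj}

omit hC hH in
lemma h_congr {i j : ℤ} (h : i = j) {a : H.A X} (ha : a ∈ H.gr X i) : a ∈ H.gr X j := h ▸ ha

lemma mid_iff : MiddleMurreD H X ↔ ∀ j : ℕ, X.dim = 2 * j → ∀ π : ℕ → C.A (X.prod X),
    IsCK H X π → ∀ z : C.A X, C.Deg j z → H.cl z = 0 → ∀ b : ℕ, 2 * j ≤ b →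
      C.act (π b) z = 0 := by
  constructor
  · intro h j hj π hπ z hz hcl b hb
    have h1 := h j hj π (isChowKunneth_iff.2 hπ) z hz hcl
    rw [inStep_iff, ← Y110.fil_eq_ckFil hπ j 1] at h1
    have h2 := (mem_fil hπ _ _ _).1 h1
    exact h2.2 b (by push_cast; omega)
  · intro h j hj π hπ z hz hcl
    have hπ' := isChowKunneth_iff.1 hπ
    rw [inStep_iff, ← Y110.fil_eq_ckFil hπ' j 1, mem_fil hπ']
    exact ⟨hz, fun b hb => h j hj π hπ' z hz hcl b (by push_cast at hb; omega)⟩

/-! ### Middle summands -/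

lemma act_deg_sub {c j : ℕ} {f : C.A (X.prod R)} (hf : C.Deg (X.dim + c) f) {z : C.A X}
    (hz : C.Deg j z) : C.Deg ((j : ℤ) + c) (C.act f z) :=
  act_mem' C (show f ∈ C.gr (X.prod R) (X.dim + (c : ℤ)) from hf) hz

/-- Moving a self-correspondence of a middle summand. -/
lemma iter_of_summand {f : C.A (X.prod R)} {g : C.A (R.prod X)} (hfg : C.comp f g = dg C X)
    {Γ : C.A (X.prod X)} {G : C.A (R.prod R)} {z : C.A X}
    (hG : ∀ w : C.A X, C.act G (C.act f w) = C.act f (C.act Γ w)) {n : ℕ}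
    (hn : (C.act G)^[n] (C.act f z) = 0) : (C.act Γ)^[n] z = 0 := by
  have hiter : ∀ n : ℕ, (C.act G)^[n] (C.act f z) = C.act f ((C.act Γ)^[n] z) := by
    intro n
    induction n with
    | zero => rfl
    | succ n ih => rw [Function.iterate_succ', Function.iterate_succ', Function.comp_apply,
        Function.comp_apply, ih, hG]
  rw [hiter] at hn
  have h1 : (C.act Γ)^[n] z = C.act g (C.act f ((C.act Γ)^[n] z)) := by
    rw [← C.act_comp, hfg, act_dg]
  rw [h1, hn, TheoryData.act_map_zero]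

/-- The local nilpotence of homologically trivial correspondences passes to middle summands. -/
theorem nilpotent_of_summand (h : IsMiddleSummand C X R) (hR : MiddleNilpotent H R) {j : ℕ}
    (hj : X.dim = 2 * j) {Γ : C.A (X.prod X)} (hΓ : C.Deg X.dim Γ) (hk : H.cl Γ = 0)
    {z : C.A X} (hz : C.Deg j z) (hcl : H.cl z = 0) : ∃ n : ℕ, (C.act Γ)^[n] z = 0 := by
  obtain ⟨c, f, g, hd, hf, hg, hfg⟩ := h
  have hfg' : C.comp f g = dg C X := hfg
  set G : C.A (R.prod R) := C.comp (C.comp g Γ) f with hG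
  have hg' : g ∈ C.gr (R.prod X) (R.dim + (-(c : ℤ))) := by
    rw [← sub_eq_add_neg]
    exact hg
  have hΓ' : Γ ∈ C.gr (X.prod X) (X.dim + (0 : ℤ)) := by rw [add_zero]; exact hΓ
  have hf' : f ∈ C.gr (X.prod R) (X.dim + (c : ℤ)) := hf
  have hGm : G ∈ C.gr (R.prod R) R.dim := by
    have h1 := comp_mem C (comp_mem C hg' hΓ') hf'
    rw [hG]
    exact gr_congr (by ring) h1
  have hact : ∀ w : C.A X, C.act G (C.act f w) = C.act f (C.act Γ w) := by
    intro w
    rw [hG, C.act_comp, C.act_comp]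
    congr 2
    rw [← C.act_comp, hfg', act_dg]
  have hGc : H.cl G = 0 := by
    apply hom_zero_of_act
    intro a
    rw [hG, actH_comp, actH_comp, hk, TheoryData.act_zero, TheoryData.act_map_zero]
  obtain ⟨n, hn⟩ := hR (j + c) (by rw [hd, hj]; ring) G hGm (Or.inl hGc) (C.act f z)
    (by have := act_deg_sub hf hz; exact_mod_cast this) (by
      change H.cl (C.act f z) = 0
      rw [cl_act H, hcl, TheoryData.act_map_zero])
  exact ⟨n, iter_of_summand hfg' hact hn⟩

/-- The Kunneth conjecture passes to middle summands. -/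
theorem kunneth_of_summand (h : IsMiddleSummand C X R) (hR : KunnethFor H R) :
    KunnethFor H X := by
  obtain ⟨c, f, g, hd, hf, hg, hfg⟩ := h
  have hfg' : C.comp f g = dg C X := hfg
  intro m
  obtain ⟨p, hp, hpa⟩ := hR (m + 2 * c)
  have hg' : g ∈ C.gr (R.prod X) (R.dim + (-(c : ℤ))) := by
    rw [← sub_eq_add_neg]
    exact hg
  have hp' : p ∈ C.gr (R.prod R) (R.dim + (0 : ℤ)) := by rw [add_zero]; exact hp
  have hf' : f ∈ C.gr (X.prod R) (X.dim + (c : ℤ)) := hf
  refine ⟨C.comp (C.comp f p) g, ?_, fun l a ha => ?_⟩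
  · have h1 := comp_mem C (comp_mem C hf' hp') hg'
    exact gr_congr (by ring) h1
  · change H.act (H.cl _) a = _
    rw [actH_comp, actH_comp]
    have h1 : H.Deg (l + 2 * c) (H.act (H.cl f) a) := by
      have h2 := actH_mem H hf' (show a ∈ H.gr X l from ha)
      exact h_congr (by ring) h2
    have h3 := hpa _ _ h1
    change H.act (H.cl p) (H.act (H.cl f) a) = _ at h3
    rw [h3]
    by_cases hl : l = m
    · rw [if_pos (by push_cast; omega), if_pos hl, ← actH_comp, hfg', actH_dg]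
    · rw [if_neg (by push_cast; omega), if_neg hl, TheoryData.act_map_zero]

end Pool.Agent.Y148.MN
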